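import Pool.Agent.Lib.MP_ae9099_mp.Main

/-!
Boundary continuity of Green functions on trees of finite cone type.
-/

open Set ComplexConjugate Pool.Agent.Lib.MP_ae9099_mp

theorem Pool.Agent.Results.MP_ae9099_mp.GreenContinuity.result
    {A V : Type} [Fintype A] [DecidableEq A] (M : Matrix A A ℕ)
    (hM1 : ∀ j, 1 ≤ M j j) (hM2 : ∃ n, ∀ j k, 0 < (M ^ n) j k)
    (G : SimpleGraph V) (hG : G.IsTree) (o : V) (a : V → A)
    (hch : ∀ x l, {y | IsChild G o x y ∧ a y = l}.encard = M (a x) l)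
    (ν : V → ℝ) (hν : ∀ x, 0 < ν x) (hνa : ∀ x y, a x = a y → ν x = ν y)
    (t : V → V → ℂ) (w : V → ℝ)
    (ht0 : ∀ x y, t x y ≠ 0 ↔ G.Adj x y) (ht1 : ∀ x y, t x y * ν x = conj (t y x) * ν y)
    (m : A → A → ℝ) (m' : A → ℝ)
    (hm : ∀ x y, IsChild G o x y →
      ‖t x y‖ ^ 2 * M (a x) (a y) = m (a x) (a y) ∧ w x = m' (a x))
    (T : Op ν) (hT : IsSelfAdjoint T) (hTj : IsJacobi G ν t w T) (x : V) :
    (∀ δ : l2 ν, (∀ y, y ≠ x → ev ν δ y = 0) → ExtendsToAxis (green T δ)) ∧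
    (∃ Tx, IsJacobi (G.induce (cone G o x)) (fun y => ν y) (fun y y' => t y y') (fun y => w y) Tx)
      ∧ ∀ Tx, IsJacobi (G.induce (cone G o x)) (fun y => ν y) (fun y y' => t y y') (fun y => w y) Tx
        → ∀ δ : l2 fun y : cone G o x => ν y,
          (∀ y : cone G o x, (y : V) ≠ x → ev (fun y : cone G o x => ν y) δ y = 0) →
          ExtendsToAxis (green Tx δ) :=
  main hM1 hM2 hG hch hν hνa ht0 ht1 hm hT hTj x
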